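import Mathlib
import Pool.Agent.Lib.H4DMDefs
import Pool.Agent.Lib.H4DepthOneB
import Pool.Agent.Lib.H4DMFree

/-!
# Free families of elements with non-zero depth-one coefficient

Let `ψ₁, …, ψ_q` be homogeneous elements of `Lie[x₀,x₁]` (for instance of `dm`) of pairwise
distinct weights, all at least `max(q, 2)`, and with non-zero coefficients of `x₀^{w-1}x₁`.  Then
they freely generate a free Lie algebra under the Ihara bracket.

Outline of the proof.  With `S_f(h) = f h + D_f(h)` it suffices that `∑ S_{ψ_i}(h_i) = 0` forces
`h_i = 0`.  Write `h = ∑ j(h_b) x₀^b`.  The coefficient of `y_{k+1} x₀^{N-1-k}` in the relation,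
`0 ≤ k < q`, gives a linear system `∑_i (-1)^k (w_i-1 choose k) c_i η_i = 0` for the leading
coefficients `η_i` of the `h_i`; the only other contribution would come from the derivation
attached to an element of weight exactly `q`, and the coefficients of `y_m x₀^{N-w}`, `m > w`,
show that it vanishes (`rq_delT_weight`).  The system is of Vandermonde type.
-/

set_option autoImplicit false

namespace Pool.Agent.Results.MP_ec2393_nt.DepthOneFamilies

open Pool.Agent.H4DM

theorem indep_family {q : ℕ} (f : Fin q → NC (Fin 2)) (w : Fin q → ℕ)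
    (hLie : ∀ i, f i ∈ Lie01) (hhom : ∀ i, Hg wX (w i) (f i)) (hw : Function.Injective w)
    (hq : ∀ i, q ≤ w i) (hw2 : ∀ i, 2 ≤ w i)
    (hne : ∀ i, cf (f i) (List.replicate (w i - 1) 0 ++ [1]) ≠ 0)
    (h : Fin q → NC (Fin 2)) (hs : ∑ i, sOp (f i) (h i) = 0) : ∀ i, h i = 0 := by
  have key : ∀ M : ℕ, ∀ i, (if w i ≤ M then comp wX (M - w i) (h i) else 0) = 0 := by
    intro M
    apply depth_one_indep_homog f w hLie hhom hw hq hw2 hne _ M
    · intro i l hl
      by_cases hi : w i ≤ M
      · rw [if_pos hi] at hl
        have := Hg_comp (w := wX) (M - w i) (h i) l hl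
        rw [wt_wX] at this
        omega
      · rw [if_neg hi] at hl
        exact absurd rfl hl
    · have e : ∑ i, comp wX M (sOp (f i) (h i)) = 0 := by rw [← map_sum, hs, map_zero]
      refine Eq.trans (Finset.sum_congr rfl ?_) e
      intro i _
      rw [comp_sOp]
      by_cases hi : w i ≤ M
      · rw [if_pos hi, Finset.sum_eq_single (w i, M - w i)]
        · simp only
          rw [(hhom i).comp_eq]
        · rintro ⟨a, b⟩ hab hne'
          rw [Finset.HasAntidiagonal.mem_antidiagonal] at hab
          simp only at hab ⊢
          rw [(hhom i).comp_ne, sOp_zero_left]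
          intro ha
          apply hne'
          rw [Prod.mk.injEq]
          omega
        · intro h'
          exfalso
          apply h'
          rw [Finset.HasAntidiagonal.mem_antidiagonal]
          simp only
          omega
      · rw [if_neg hi, sOp_zero_right]
        symm
        apply Finset.sum_eq_zero
        rintro ⟨a, b⟩ hab
        rw [Finset.HasAntidiagonal.mem_antidiagonal] at hab
        simp only at hab ⊢
        rw [(hhom i).comp_ne (by omega), sOp_zero_left]
  intro i
  apply cf_ext
  intro l
  have h1 := key (w i + l.length) i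
  rw [if_pos (by omega)] at h1
  have h2 := congrArg (fun p => cf p l) h1
  simp only [cf_zero] at h2 ⊢
  rw [cf_comp, wt_wX, if_pos (by omega)] at h2
  exact h2

/-- Let `ψ₁, …, ψ_q` be homogeneous elements of `Lie[x₀,x₁]` of pairwise distinct weights
`w_i ≥ max(q, 2)` in which the coefficients of `x₀^{w_i - 1}x₁` do not vanish.  Then they freely
generate a free Lie algebra of rank `q` under the Ihara bracket. -/
theorem result {q : ℕ} (ψ : Fin q → IharaLie) (w : Fin q → ℕ) (hw : Function.Injective w)
    (hq : ∀ i, q ≤ w i) (hw2 : ∀ i, 2 ≤ w i)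
    (hhom : ∀ (i : Fin q) (l : List (Fin 2)), cf (ψ i).val l ≠ 0 → l.length = w i)
    (hne : ∀ i, cf (ψ i).val (List.replicate (w i - 1) 0 ++ [1]) ≠ 0) :
    Function.Injective (FreeLieAlgebra.lift ℚ ψ) := by
  apply lift_injective
  · intro i
    exact cf_lie_nil (ψ i).mem
  · intro h hs
    apply indep_family (fun i => (ψ i).val) w (fun i => (ψ i).mem) _ hw hq hw2 hne h hs
    intro i l hl
    rw [wt_wX]
    exact hhom i l hl

end Pool.Agent.Results.MP_ec2393_nt.DepthOneFamilies
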