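import Mathlib
import Pool.Agent.Lib.H4DMDefs
import Pool.Agent.ECV.Done

/-!
# The double shuffle Lie algebra is free, with one generator in each odd weight at least 3

The double shuffle Lie algebra `dm` over `ℚ`, with the Ihara bracket, is freely generated by a set
consisting of exactly one homogeneous element of each odd weight `w ≥ 3`.

Definitions (`Pool.Agent.Lib.H4NC`, `Pool.Agent.Lib.H4DMDefs`): `NC (Fin 2)` is `ℚ⟨x₀,x₁⟩`,
`cf ψ l` is the coefficient of the word `l`, `IharaLie` is `Lie[x₀,x₁]` with the Ihara bracket and
`IsDM` is membership in `dm`.

Outline of the proof.

* Generators.  The regularised multiple zeta values give a real point of the double shuffle scheme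
  with non-zero depth-one coefficients (`ECR.real_point`).  By the torsor property (Racinet), the
  comparison of this point with its image under `x_i ↦ -x_i` gives elements of `dm ⊗ ℝ`, hence of
  `dm`, of each odd weight `2n+3` with non-zero coefficient of `x₀^{2n+2}x₁`
  (`ECG.odd_elements`).
* Freeness.  Zagier's formula for the coefficients of `(x₀x₁)^a x₀x₀x₁ (x₀x₁)^b` holds in `dm`, and
  its 2-adic properties show that elements of `dm` with linearly independent depth-one parts are
  free (`H44DM.free_of_indep`).
* Upper bound for `dim dm_w`.  Let `redM w 2` be the space of the reductions modulo 2 of the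
  elements of `dm_w` with integral coefficients; its dimension is at least `dim dm_w`.  Call a word
  unit-free if it is a product of words `x₀x₁`, `x₀x₀x₁`, …, that is if it starts with `x₀`, ends
  with `x₁` and has no `x₁x₁`.
  (KV) For `c` in `redM w 2` the coefficients of the unit-free words with a factor `x₀x₀x₀` vanish,
  and the others are the coefficients of a Lie element in two letters of weights 2 and 3
  (`ECK.unitfree`).
  (Cleansing) An element of `redM w 2` whose unit-free coefficients vanish is zero
  (`ECV.cleansing`).
  For `w ≥ 3` the dimension of the weight `w` part of the free Lie algebra on two generators of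
  weights 2 and 3 over the field with two elements is at most that of the weight `w` part of the
  free Lie algebra over `ℚ` on generators of weights 3, 5, 7, … (`ECC.count_le`).
* For cleansing one extends the part of `c` of lowest depth to a cyclic function `N` on words, which
  is invariant under the substitutions `a ↦ a/(1-tb)` and `b ↦ b/(1-tb)` in the letters
  `a = x₀`, `b = x₁`, and writes the words as `a b^{k₁} ⋯ a b^{k_r}`.  By induction on `m` the values
  of `N` vanish if all but `m` of the `k_i` are at most one (`ECV.Win.qsys_zero`).
-/

set_option autoImplicit false

namespace Pool.Agent.Results.MP_ec2393_nt.FreeOddGeneration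

open Pool.Agent.H4DM

/-- The double shuffle Lie algebra `dm`, with the Ihara bracket, is freely generated by one
homogeneous element in each odd weight at least `3`: there are elements `s₀, s₁, s₂, …` of `dm`,
with `s_n` homogeneous of weight `2n+3`, such that the homomorphism from the free Lie algebra on
`ℕ` to `Lie[x₀,x₁]` with the Ihara bracket sending the generator `n` to `s_n` is injective and its
image is `dm`. -/
theorem result : ∃ s : ℕ → IharaLie,
    (∀ n, IsDM (s n).val ∧ ∀ l : List (Fin 2), cf (s n).val l ≠ 0 → l.length = 2 * n + 3) ∧
    Function.Injective (FreeLieAlgebra.lift ℚ s) ∧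
    ∀ ψ : IharaLie, ψ ∈ (FreeLieAlgebra.lift ℚ s).range ↔ IsDM ψ.val :=
  Pool.Agent.ECV.free_generation_dm

end Pool.Agent.Results.MP_ec2393_nt.FreeOddGeneration
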