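import Mathlib
import Pool.Agent.Lib.H4DMDefs
import Pool.Agent.H44DM.Coeff

/-!
# Zagier's formula in the double shuffle Lie algebra

For every `ψ` in `dm` the coefficient of `(x₀x₁)^a x₀x₀x₁ (x₀x₁)^b`, which is the coefficient of
`y₂^a y₃ y₂^b`, is an explicit rational multiple of the coefficient of `x₀^{2r}x₁`, `r = a+b+1`.

Outline of the proof.  Let `F = ψ_*`.  For sequences `g, r, s` let `E(g; r, s)` be the functional
`y_{k₁}⋯y_{k_d} ↦ ∑_i r_{k₁}⋯r_{k_{i-1}} g_{k_i} s_{k_{i+1}}⋯s_{k_d}`; write `G = ∑ g_k t^k`,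
`R = 1 + ∑ r_k t^k`, `S = 1 + ∑ s_k t^k`.
* Primitivity of `F` gives `E(GP; RP, SP)(F) = E(G; R, S)(F)` for all `P ∈ 1 + tℚ⟦t⟧`
  (`EP_twist`), and evaluates `E(G; R, R)(F)` and `E(R - S; R, S)(F)`.
* `ψ ∈ Lie[x₀,x₁]` gives linear relations between the `E`'s of geometric sequences: from the
  action of `ψ` on tensor products of small representations (`relL3`, `relB1a`, `relB1b`), and from
  the vanishing of the trace and the transposition in rank one perturbations of diagonal
  representations over the dual numbers (`relTr1`, `relTr2`).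
* Together they evaluate `E(t³; -x²t², -y²t²)(F)` (`Aform`), the generating function of the
  coefficients of the words `y₂^a y₃ y₂^b`.
-/

set_option autoImplicit false

namespace Pool.Agent.Results.MP_ec2393_nt.ZagierFormula

open Pool.Agent.H4DM Pool.Agent.H44DM

/-- Zagier's formula holds in `dm`: for `ψ ∈ dm`, `a, b ≥ 0` and `r = a + b + 1` the coefficient
of `(x₀x₁)^a x₀x₀x₁ (x₀x₁)^b` in `ψ` is
`2(-1)^r (C(2r, 2b+2) - (1 - 2^{-2r}) C(2r, 2a+1)) (ψ | x₀^{2r}x₁)`. -/
theorem result (ψ : NC (Fin 2)) (hψ : IsDM ψ) (a b r : ℕ) (hr : a + b + 1 = r) :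
    cf ψ (yw (List.replicate a 2 ++ 3 :: List.replicate b 2)) =
      2 * (-1) ^ r * ((Nat.choose (2 * r) (2 * b + 2) : ℚ)
        - (1 - 1 / 2 ^ (2 * r)) * (Nat.choose (2 * r) (2 * a + 1) : ℚ)) *
        cf ψ (List.replicate (2 * r) 0 ++ [1]) := by
  have h := zagier hψ a b r hr
  rw [← yw_w23] at h
  exact h

end Pool.Agent.Results.MP_ec2393_nt.ZagierFormula
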